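import Pool.Agent.Helper93.UX.Defs

/-!
# TX-A13: the sharp upper bound for the tail of the number of zeros in a window
-/

set_option autoImplicit false
open MeasureTheory Set Filter Topology
open Pool.Agent.Helper93.UG (zc sp)

namespace Pool.Agent.Helper54.TX

theorem fact54 {δ : ℝ} (hδ : 0 < δ) (hδ1 : δ ≤ 1) (k : ℕ) {v : ℝ} (hv : 0 < v) (hk : (k : ℝ) ≤ v) (hk2 : v < k + 1) :
    (k.factorial : ℝ) * (1 / v) ^ k ≤ Real.exp 2 / δ * Real.exp (-((1 - δ) * v)) := by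
  rcases Nat.eq_zero_or_pos k with h0 | h0
  · subst h0
    simp only [Nat.factorial_zero, Nat.cast_one, pow_zero, mul_one]
    have hv1 : v < 1 := by simpa using hk2
    rw [div_mul_eq_mul_div, le_div_iff₀ hδ, one_mul, ← Real.exp_add]
    refine hδ1.trans (Real.one_le_exp ?_)
    nlinarith
  · have hk0 : (0 : ℝ) < k := by exact_mod_cast h0
    have hk1 : (1 : ℝ) ≤ k := by exact_mod_cast h0
    have hst : (k.factorial : ℝ) ≤ Real.exp 1 * k * (k / Real.exp 1) ^ k := by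
      obtain ⟨m, rfl⟩ : ∃ m, k = m + 1 := ⟨k - 1, by omega⟩
      have h1 : Stirling.stirlingSeq (m + 1) ≤ Stirling.stirlingSeq 1 := Stirling.stirlingSeq'_antitone (Nat.zero_le m)
      rw [Stirling.stirlingSeq_one] at h1
      unfold Stirling.stirlingSeq at h1
      have h2 : (0 : ℝ) < √(2 * ((m + 1 : ℕ) : ℝ)) * (((m + 1 : ℕ) : ℝ) / Real.exp 1) ^ (m + 1) := by positivity
      rw [div_le_iff₀ h2] at h1
      refine h1.trans ?_
      have h3 : √(2 * ((m + 1 : ℕ) : ℝ)) = √2 * √((m + 1 : ℕ) : ℝ) := Real.sqrt_mul (by norm_num) _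
      have h4 : √((m + 1 : ℕ) : ℝ) ≤ ((m + 1 : ℕ) : ℝ) := by
        rw [Real.sqrt_le_left (by positivity)]
        nlinarith
      have h5 : Real.exp 1 / √2 * (√(2 * ((m + 1 : ℕ) : ℝ)) * (((m + 1 : ℕ) : ℝ) / Real.exp 1) ^ (m + 1)) =
          Real.exp 1 * √((m + 1 : ℕ) : ℝ) * (((m + 1 : ℕ) : ℝ) / Real.exp 1) ^ (m + 1) := by
        rw [h3]
        have : √(2 : ℝ) ≠ 0 := by positivity
        field_simp
      rw [h5]
      gcongr
    have h6 : (k : ℝ) ≤ Real.exp (δ * k) / δ := by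
      rw [le_div_iff₀ hδ]
      have := Real.add_one_le_exp (δ * k)
      linarith
    have h7 : ((k : ℝ) / Real.exp 1) ^ k * (1 / v) ^ k ≤ Real.exp (-k) := by
      have h8 : (k : ℝ) / Real.exp 1 * (1 / v) ≤ Real.exp (-1) := by
        rw [Real.exp_neg]
        have h9 : (k : ℝ) / v ≤ 1 := (div_le_one hv).2 hk
        calc (k : ℝ) / Real.exp 1 * (1 / v) = k / v * (Real.exp 1)⁻¹ := by
              field_simp
          _ ≤ 1 * (Real.exp 1)⁻¹ := mul_le_mul_of_nonneg_right h9 (by positivity)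
          _ = _ := one_mul _
      calc ((k : ℝ) / Real.exp 1) ^ k * (1 / v) ^ k = ((k : ℝ) / Real.exp 1 * (1 / v)) ^ k := by rw [mul_pow]
        _ ≤ Real.exp (-1) ^ k := pow_le_pow_left₀ (by positivity) h8 k
        _ = _ := by
          rw [← Real.exp_nat_mul]
          congr 1
          ring
    calc (k.factorial : ℝ) * (1 / v) ^ k ≤ Real.exp 1 * k * (k / Real.exp 1) ^ k * (1 / v) ^ k := by gcongr
      _ = Real.exp 1 * k * ((k / Real.exp 1) ^ k * (1 / v) ^ k) := by ring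
      _ ≤ Real.exp 1 * (Real.exp (δ * k) / δ) * Real.exp (-k) := by gcongr
      _ = Real.exp (1 + δ * k - k) / δ := by
          rw [sub_eq_add_neg, Real.exp_add, Real.exp_add]
          ring
      _ ≤ Real.exp (2 + -((1 - δ) * v)) / δ := by
          refine div_le_div_of_nonneg_right (Real.exp_le_exp.2 ?_) hδ.le
          nlinarith
      _ = _ := by
          rw [Real.exp_add]
          ring

theorem tx2_of (master : ∃ C κ M₀ T₀ : ℝ, 0 < C ∧ 0 < κ ∧ 1 ≤ M₀ ∧ ∀ T c M : ℝ, T₀ ≤ T → 1 ≤ c →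
    c * Real.log (Real.log T) ≤ Real.log T → M₀ ≤ M → M ≤ Real.log T →
    ∀ (V : ℝ) (k : ℕ), 0 < V → (k : ℝ) ≤ M / 8 →
    volume {t : ℝ | T / 2 ≤ t ∧ t ≤ 3 * T ∧ V + C * M ≤ |(zc (Ico t (t + c * sp T)) : ℝ) - c|} ≤
      ENNReal.ofReal ((C * Real.exp (-(κ * M)) +
        C * (k.factorial * (2 / Real.pi ^ 2 * (Real.log c + C) / V ^ 2) ^ k)) * T)) : Pool.Agent.Helper93.UX.TX2 := by
  obtain ⟨C, κ, M₀, T₀, hC, hκ, hM₀, h⟩ := master
  intro ε hε
  -- we may take `ε ≤ 1`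
  obtain ⟨δ, hδ⟩ : ∃ δ : ℝ, δ = min ε 1 / 20 := ⟨_, rfl⟩
  have hδ0 : 0 < δ := by rw [hδ]; positivity
  have hδ1 : δ ≤ 1 / 20 := by
    rw [hδ]
    have := min_le_right ε 1
    linarith
  have hδε : 20 * δ ≤ ε := by
    rw [hδ]
    have := min_le_left ε 1
    linarith
  obtain ⟨ε₁, hε₁⟩ : ∃ ε₁ : ℝ, ε₁ = δ / (C + 1) := ⟨_, rfl⟩
  have hε₁0 : 0 < ε₁ := by rw [hε₁]; positivity
  have hε₁1 : ε₁ ≤ 1 := by
    rw [hε₁, div_le_one (by positivity)]
    linarith
  have hCε : C * ε₁ ≤ δ := by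
    rw [hε₁, mul_div_assoc', div_le_iff₀ (by positivity)]
    nlinarith
  obtain ⟨η, hη⟩ : ∃ η : ℝ, η = min 1 (min (ε₁ / 40) (κ * ε₁ / 5)) := ⟨_, rfl⟩
  have hη0 : 0 < η := by rw [hη]; positivity
  have hη1 : η ≤ 1 := by rw [hη]; exact min_le_left _ _
  have hη2 : η ≤ ε₁ / 40 := by rw [hη]; exact (min_le_right _ _).trans (min_le_left _ _)
  have hη3 : η ≤ κ * ε₁ / 5 := by rw [hη]; exact (min_le_right _ _).trans (min_le_right _ _)
  have hpi1 : Real.pi ^ 2 / 2 ≤ 5 := by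
    have h1 := Real.pi_lt_d2
    have h2 := Real.pi_pos
    nlinarith
  have hpi0 : 0 < Real.pi ^ 2 / 2 := by positivity
  obtain ⟨C', hC'⟩ : ∃ C' : ℝ, C' = 7 + Real.log (1 + C + C * (Real.exp 2 / δ)) := ⟨_, rfl⟩
  have hlogC : 0 ≤ Real.log (1 + C + C * (Real.exp 2 / δ)) := by
    apply Real.log_nonneg
    have : 0 < C * (Real.exp 2 / δ) := by positivity
    linarith
  refine ⟨C', η, 1, Real.exp (1 + C / δ + (M₀ / ε₁) ^ 2), max T₀ (Real.exp (Real.exp 1)), by linarith, hη0, one_pos, ?_⟩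
  intro T hT c W hc hcT hW0 hW
  have hT1 : T₀ ≤ T := (le_max_left _ _).trans hT
  have hT2 : Real.exp (Real.exp 1) ≤ T := (le_max_right _ _).trans hT
  have hTp : 0 < T := lt_of_lt_of_le (Real.exp_pos _) hT2
  have hl1 : Real.exp 1 ≤ Real.log T := by
    rw [Real.le_log_iff_exp_le hTp]
    exact hT2
  have hlp : 0 < Real.log T := lt_of_lt_of_le (Real.exp_pos _) hl1
  have hll : 1 ≤ Real.log (Real.log T) := by
    rw [Real.le_log_iff_exp_le hlp]
    exact hl1
  have hc0 : 0 < c := lt_of_lt_of_le (Real.exp_pos _) hc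
  have hlc : 1 + C / δ + (M₀ / ε₁) ^ 2 ≤ Real.log c := by
    rw [Real.le_log_iff_exp_le hc0]
    exact hc
  have hCδ0 : 0 < C / δ := by positivity
  have hMε0 : 0 < (M₀ / ε₁) ^ 2 := by positivity
  have hlc1 : 1 ≤ Real.log c := by linarith
  have hlc0 : 0 < Real.log c := by linarith
  have hc1 : 1 ≤ c := by
    refine le_trans (Real.one_le_exp ?_) hc
    linarith
  have hcll : c * Real.log (Real.log T) ≤ Real.log T := by
    rw [one_mul, le_div_iff₀ (by linarith)] at hcT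
    exact hcT
  have hcl : c ≤ Real.log T := by nlinarith
  by_cases hsm : W ^ 2 ≤ Real.log c
  · -- the trivial range
    have h1 : {t : ℝ | T / 2 ≤ t ∧ t ≤ 3 * T ∧ W ≤ |(zc (Ico t (t + c * sp T)) : ℝ) - c|} ⊆ Icc (T / 2) (3 * T) :=
      fun t ht => ⟨ht.1, ht.2.1⟩
    refine (measure_mono h1).trans ?_
    rw [Real.volume_Icc]
    apply ENNReal.ofReal_le_ofReal
    have h2 : W ^ 2 / Real.log c ≤ 1 := (div_le_one hlc0).2 hsm
    have h3 : 0 ≤ W ^ 2 / Real.log c := by positivity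
    have h4 : 2 ≤ C' - (Real.pi ^ 2 / 2 - ε) * W ^ 2 / Real.log c := by
      have e : (Real.pi ^ 2 / 2 - ε) * W ^ 2 / Real.log c = (Real.pi ^ 2 / 2 - ε) * (W ^ 2 / Real.log c) := by ring
      rw [e]
      have h5 : (Real.pi ^ 2 / 2 - ε) * (W ^ 2 / Real.log c) ≤ 5 := by
        calc (Real.pi ^ 2 / 2 - ε) * (W ^ 2 / Real.log c) ≤ 5 * (W ^ 2 / Real.log c) :=
              mul_le_mul_of_nonneg_right (by linarith) h3
          _ ≤ 5 * 1 := by gcongr
          _ = 5 := by ring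
      linarith
    have h6 : 3 ≤ Real.exp (C' - (Real.pi ^ 2 / 2 - ε) * W ^ 2 / Real.log c) := by
      have := Real.add_one_le_exp (C' - (Real.pi ^ 2 / 2 - ε) * W ^ 2 / Real.log c)
      linarith
    nlinarith
  · push Not at hsm
    have hWM : M₀ / ε₁ ≤ W := by
      have h1 : (M₀ / ε₁) ^ 2 ≤ W ^ 2 := by linarith
      exact (sq_le_sq₀ (by positivity) hW0).1 h1
    have hWp : 0 < W := lt_of_lt_of_le (by positivity) hWM
    have hM1 : M₀ ≤ ε₁ * W := by
      rw [div_le_iff₀ hε₁0] at hWM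
      linarith
    have hMT : ε₁ * W ≤ Real.log T := by
      have h1 : ε₁ * W ≤ 1 * (1 * Real.log c) := mul_le_mul hε₁1 (hW.trans (mul_le_mul_of_nonneg_right hη1 hlc0.le)) hW0 zero_le_one
      have h2 : Real.log c ≤ c := (Real.log_le_sub_one_of_pos hc0).trans (by linarith)
      linarith
    obtain ⟨V, hV⟩ : ∃ V : ℝ, V = W - C * (ε₁ * W) := ⟨_, rfl⟩
    have hV1 : (1 - δ) * W ≤ V := by
      rw [hV]
      nlinarith
    have hV0 : 0 < V := lt_of_lt_of_le (mul_pos (by linarith) hWp) hV1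
    have hVW : V ≤ W := by
      rw [hV]
      have : 0 < C * (ε₁ * W) := by positivity
      linarith
    obtain ⟨v, hv⟩ : ∃ v : ℝ, v = V ^ 2 / (2 / Real.pi ^ 2 * (Real.log c + C)) := ⟨_, rfl⟩
    have hv0 : 0 < v := by rw [hv]; positivity
    have hv1 : v = Real.pi ^ 2 / 2 * (V ^ 2 / (Real.log c + C)) := by
      rw [hv]
      field_simp
    have hvW : v ≤ 5 * (η * W) := by
      rw [hv1]
      have h1 : V ^ 2 / (Real.log c + C) ≤ W ^ 2 / Real.log c := by
        apply div_le_div₀ (by positivity) (pow_le_pow_left₀ hV0.le hVW 2) hlc0 (by linarith)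
      have h2 : W ^ 2 / Real.log c ≤ η * W := by
        rw [div_le_iff₀ hlc0]
        nlinarith
      exact mul_le_mul hpi1 (h1.trans h2) (by positivity) (by norm_num)
    obtain ⟨k, hk⟩ : ∃ k : ℕ, k = ⌊v⌋₊ := ⟨_, rfl⟩
    have hk1 : (k : ℝ) ≤ v := by rw [hk]; exact Nat.floor_le hv0.le
    have hk2 : v < k + 1 := by rw [hk]; exact Nat.lt_floor_add_one v
    have hk8 : (k : ℝ) ≤ ε₁ * W / 8 := by
      have h1 : 5 * (η * W) ≤ 5 * (ε₁ / 40 * W) := by gcongr
      linarith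
    have hm := h T c (ε₁ * W) hT1 hc1 hcll hM1 hMT V k hV0 hk8
    have hset : V + C * (ε₁ * W) = W := by
      rw [hV]
      ring
    rw [hset] at hm
    refine hm.trans (ENNReal.ofReal_le_ofReal (mul_le_mul_of_nonneg_right ?_ hTp.le))
    have hvi : (2 / Real.pi ^ 2 * (Real.log c + C) / V ^ 2) = 1 / v := by
      rw [hv, one_div_div]
    rw [hvi]
    have hf := fact54 hδ0 (by linarith) k hv0 hk1 hk2
    -- the exponents
    have hx0 : 0 ≤ W ^ 2 / Real.log c := by positivity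
    have hX1 : (Real.pi ^ 2 / 2 - ε) * (W ^ 2 / Real.log c) ≤ κ * (ε₁ * W) := by
      have h2 : W ^ 2 / Real.log c ≤ η * W := by
        rw [div_le_iff₀ hlc0]
        nlinarith
      calc (Real.pi ^ 2 / 2 - ε) * (W ^ 2 / Real.log c) ≤ 5 * (W ^ 2 / Real.log c) :=
            mul_le_mul_of_nonneg_right (by linarith) hx0
        _ ≤ 5 * (η * W) := by gcongr
        _ ≤ 5 * (κ * ε₁ / 5 * W) := by gcongr
        _ = _ := by ring
    have hX2 : (Real.pi ^ 2 / 2 - ε) * (W ^ 2 / Real.log c) ≤ (1 - δ) * v := by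
      have h1 : (1 - δ) * (Real.log c + C) ≤ Real.log c := by
        have h2 : C ≤ δ * Real.log c := by
          have h3 : C / δ ≤ Real.log c := by linarith
          rw [div_le_iff₀ hδ0] at h3
          linarith
        nlinarith
      have h3 : (1 - δ) ^ 3 * (W ^ 2 / Real.log c) ≤ V ^ 2 / (Real.log c + C) := by
        rw [mul_div_assoc', div_le_div_iff₀ hlc0 (by positivity)]
        have h4 : ((1 - δ) * W) ^ 2 ≤ V ^ 2 := pow_le_pow_left₀ (mul_nonneg (by linarith) hW0) hV1 2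
        calc (1 - δ) ^ 3 * W ^ 2 * (Real.log c + C) = ((1 - δ) * W) ^ 2 * ((1 - δ) * (Real.log c + C)) := by ring
          _ ≤ V ^ 2 * Real.log c := mul_le_mul h4 h1 (mul_nonneg (by linarith) (by linarith)) (by positivity)
      have h5 : Real.pi ^ 2 / 2 - ε ≤ (1 - δ) * (Real.pi ^ 2 / 2 * (1 - δ) ^ 3) := by
        have h6 : 1 - 4 * δ ≤ (1 - δ) ^ 4 := by
          have := one_add_mul_le_pow (a := -δ) (by linarith) 4
          have e : (1 : ℝ) + -δ = 1 - δ := by ring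
          rw [e] at this
          push_cast at this
          linarith
        calc Real.pi ^ 2 / 2 - ε ≤ Real.pi ^ 2 / 2 * (1 - 4 * δ) := by nlinarith
          _ ≤ Real.pi ^ 2 / 2 * (1 - δ) ^ 4 := mul_le_mul_of_nonneg_left h6 hpi0.le
          _ = _ := by ring
      rw [hv1]
      calc (Real.pi ^ 2 / 2 - ε) * (W ^ 2 / Real.log c) ≤ (1 - δ) * (Real.pi ^ 2 / 2 * (1 - δ) ^ 3) * (W ^ 2 / Real.log c) :=
            mul_le_mul_of_nonneg_right h5 hx0
        _ = (1 - δ) * (Real.pi ^ 2 / 2 * ((1 - δ) ^ 3 * (W ^ 2 / Real.log c))) := by ring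
        _ ≤ _ := by
            have : 0 ≤ 1 - δ := by linarith
            gcongr
    have e : (Real.pi ^ 2 / 2 - ε) * W ^ 2 / Real.log c = (Real.pi ^ 2 / 2 - ε) * (W ^ 2 / Real.log c) := by ring
    rw [e]
    obtain ⟨Z, hZ⟩ : ∃ Z : ℝ, Z = (Real.pi ^ 2 / 2 - ε) * (W ^ 2 / Real.log c) := ⟨_, rfl⟩
    rw [← hZ] at hX1 hX2 ⊢
    have hD : 0 < 1 + C + C * (Real.exp 2 / δ) := by positivity
    calc C * Real.exp (-(κ * (ε₁ * W))) + C * ((k.factorial : ℝ) * (1 / v) ^ k)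
        ≤ C * Real.exp (-Z) + C * (Real.exp 2 / δ * Real.exp (-Z)) := by
          have h1 : Real.exp (-(κ * (ε₁ * W))) ≤ Real.exp (-Z) := Real.exp_le_exp.2 (by linarith)
          have h2 : Real.exp (-((1 - δ) * v)) ≤ Real.exp (-Z) := Real.exp_le_exp.2 (by linarith)
          have h3 : (k.factorial : ℝ) * (1 / v) ^ k ≤ Real.exp 2 / δ * Real.exp (-Z) := hf.trans (by gcongr)
          gcongr
      _ = (C + C * (Real.exp 2 / δ)) * Real.exp (-Z) := by ring
      _ ≤ (1 + C + C * (Real.exp 2 / δ)) * Real.exp (-Z) := by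
          refine mul_le_mul_of_nonneg_right ?_ (Real.exp_pos _).le
          linarith
      _ = Real.exp (Real.log (1 + C + C * (Real.exp 2 / δ)) + -Z) := by
          rw [Real.exp_add, Real.exp_log hD]
      _ ≤ Real.exp (C' - Z) := Real.exp_le_exp.2 (by rw [hC']; linarith)

end Pool.Agent.Helper54.TX
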